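import Mathlib

/-!
# Conjugate products in the group of orientation preserving homeomorphisms of the sphere

Let `S` be the two-sphere, `Homeo(S)` its group of homeomorphisms with the compact-open topology and
`G` the path component of the identity.  `P n` says that for all `A, B ∈ G` different from the
identity `B` is a product of `n` conjugates of `A` by elements of `Homeo(S)`.

We prove that `P n` fails for `n ≤ 2`, so `N ≥ 3`.  A product of two conjugates of an involution is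
conjugate to its inverse.  The homeomorphism `B v = L v / ‖L v‖`, `L (x, y, z) = (e x, -z, y)`, has an
attracting fixed point, but its inverse has none.
-/

set_option autoImplicit false

namespace Pool.Agent.Results.MP_c6d336_gt.AtLeastThree

open Topology Filter Real

/-- The two-sphere `S`: the unit sphere of the Euclidean space `ℝ³`. -/
def Sphere : Type := Metric.sphere (0 : EuclideanSpace ℝ (Fin 3)) 1

/-- The usual topology of the sphere (as a subspace of `ℝ³`). -/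
instance : TopologicalSpace Sphere :=
  inferInstanceAs (TopologicalSpace (Metric.sphere (0 : EuclideanSpace ℝ (Fin 3)) 1))

/-- `Homeo(S)`, the group of all homeomorphisms of `S` (with the composition). -/
def Homeo : Type := Sphere ≃ₜ Sphere

instance : Group Homeo := inferInstanceAs (Group (Sphere ≃ₜ Sphere))

/-- A homeomorphism as a continuous map from `S` to `S`. -/
def Homeo.toMap (h : Homeo) : C(Sphere, Sphere) := ⟨h.toFun, h.continuous_toFun⟩

/-- The compact-open topology of `Homeo(S)`: induced from the compact-open topology of the space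
`C(S, S)` of continuous maps. -/
instance : TopologicalSpace Homeo := TopologicalSpace.induced Homeo.toMap inferInstance

/-- `G`: the path component of the identity in `Homeo(S)`. -/
def G : Set Homeo := {h | Joined 1 h}

/-- `B` is a product `(H_1 A H_1⁻¹) (H_2 A H_2⁻¹) ... (H_n A H_n⁻¹)` with `H_i` in `Homeo(S)`. -/
def IsProduct (n : ℕ) (A B : Homeo) : Prop :=
  ∃ H : Fin n → Homeo, B = (List.ofFn fun i => H i * A * (H i)⁻¹).prod

/-- Property `P(n)`: for all `A, B ∈ G` different from the identity, `B` is a product of `n`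
conjugates of `A`, the conjugating maps being arbitrary homeomorphisms of `S`. -/
def P (n : ℕ) : Prop := ∀ A ∈ G, ∀ B ∈ G, A ≠ 1 → B ≠ 1 → IsProduct n A B

/-- the sphere as a reducible subtype, used in the proofs -/
abbrev S2 : Type := Metric.sphere (0 : EuclideanSpace ℝ (Fin 3)) 1

/-- The linear map `(x, y, z) ↦ (e^s x, R_θ (y, z))`. -/
noncomputable def m (s θ : ℝ) (v : EuclideanSpace ℝ (Fin 3)) : EuclideanSpace ℝ (Fin 3) :=
  !₂[exp s * v 0, cos θ * v 1 - sin θ * v 2, sin θ * v 1 + cos θ * v 2]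

theorem m_0 (s θ : ℝ) (v : EuclideanSpace ℝ (Fin 3)) : m s θ v 0 = exp s * v 0 := rfl
theorem m_1 (s θ : ℝ) (v : EuclideanSpace ℝ (Fin 3)) :
    m s θ v 1 = cos θ * v 1 - sin θ * v 2 := rfl
theorem m_2 (s θ : ℝ) (v : EuclideanSpace ℝ (Fin 3)) :
    m s θ v 2 = sin θ * v 1 + cos θ * v 2 := rfl

theorem ext3 {v w : EuclideanSpace ℝ (Fin 3)} (h0 : v 0 = w 0) (h1 : v 1 = w 1) (h2 : v 2 = w 2) :
    v = w := by
  ext i
  fin_cases i
  · exact h0
  · exact h1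
  · exact h2

theorem m_zero (v : EuclideanSpace ℝ (Fin 3)) : m 0 0 v = v := by
  apply ext3
  · rw [m_0, exp_zero, one_mul]
  · rw [m_1, cos_zero, sin_zero]; ring
  · rw [m_2, cos_zero, sin_zero]; ring

theorem m_m (s θ s' θ' : ℝ) (v : EuclideanSpace ℝ (Fin 3)) :
    m s θ (m s' θ' v) = m (s + s') (θ + θ') v := by
  apply ext3
  · simp only [m_0, exp_add]; ring
  · simp only [m_1, m_2, cos_add, sin_add]; ring
  · simp only [m_1, m_2, cos_add, sin_add]; ring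

theorem m_smul (s θ c : ℝ) (v : EuclideanSpace ℝ (Fin 3)) : m s θ (c • v) = c • m s θ v := by
  apply ext3
  · simp only [m_0, PiLp.smul_apply, smul_eq_mul]; ring
  · simp only [m_1, PiLp.smul_apply, smul_eq_mul]; ring
  · simp only [m_2, PiLp.smul_apply, smul_eq_mul]; ring

theorem m_ne (s θ : ℝ) {v : EuclideanSpace ℝ (Fin 3)} (hv : v ≠ 0) : m s θ v ≠ 0 := by
  intro h
  apply hv
  have h1 : m (-s) (-θ) (m s θ v) = v := by
    rw [m_m, neg_add_cancel, neg_add_cancel, m_zero]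
  rw [← h1, h]
  have := m_smul (-s) (-θ) 0 (0 : EuclideanSpace ℝ (Fin 3))
  simpa using this

theorem m_cont : Continuous fun q : ℝ × ℝ × EuclideanSpace ℝ (Fin 3) => m q.1 q.2.1 q.2.2 := by
  unfold m
  fun_prop

theorem S2_ne (v : S2) : (v : EuclideanSpace ℝ (Fin 3)) ≠ 0 := by
  intro h
  have := v.2
  rw [mem_sphere_zero_iff_norm, h, norm_zero] at this
  exact zero_ne_one this

/-- normalisation -/
noncomputable def nz (v : EuclideanSpace ℝ (Fin 3)) (hv : v ≠ 0) : S2 :=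
  ⟨‖v‖⁻¹ • v, by
    rw [mem_sphere_zero_iff_norm, norm_smul, norm_inv, norm_norm,
      inv_mul_cancel₀ (norm_ne_zero_iff.2 hv)]⟩

theorem nz_congr {v w : EuclideanSpace ℝ (Fin 3)} (hv : v ≠ 0) (hw : w ≠ 0) {c : ℝ} (hc : 0 < c)
    (h : w = c • v) : nz w hw = nz v hv := by
  apply Subtype.ext
  show ‖w‖⁻¹ • w = ‖v‖⁻¹ • v
  rw [h, norm_smul, Real.norm_eq_abs, abs_of_pos hc, smul_smul, mul_inv]
  congr 1
  field_simp

theorem nz_self (v : S2) (h : (v : EuclideanSpace ℝ (Fin 3)) ≠ 0) : nz v h = v := by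
  apply Subtype.ext
  show ‖(v : EuclideanSpace ℝ (Fin 3))‖⁻¹ • (v : EuclideanSpace ℝ (Fin 3)) = v
  rw [mem_sphere_zero_iff_norm.1 v.2, inv_one, one_smul]

/-- the map of the sphere -/
noncomputable def f (s θ : ℝ) (v : S2) : S2 := nz (m s θ v) (m_ne s θ (S2_ne v))

theorem f_f (s θ s' θ' : ℝ) (v : S2) : f s θ (f s' θ' v) = f (s + s') (θ + θ') v := by
  refine nz_congr _ _ (c := ‖m s' θ' v‖⁻¹) (inv_pos.2 (norm_pos_iff.2 (m_ne s' θ' (S2_ne v)))) ?_
  show m s θ (‖m s' θ' v‖⁻¹ • m s' θ' v) = _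
  rw [m_smul, m_m]

theorem f_zero (v : S2) : f 0 0 v = v := by
  have h : f 0 0 v = nz v (S2_ne v) := nz_congr _ _ (c := 1) one_pos (by rw [m_zero, one_smul])
  rw [h, nz_self]

theorem f_cont : Continuous fun q : ℝ × ℝ × S2 => f q.1 q.2.1 q.2.2 := by
  apply Continuous.subtype_mk
  have h : Continuous fun q : ℝ × ℝ × S2 => m q.1 q.2.1 (q.2.2 : EuclideanSpace ℝ (Fin 3)) :=
    m_cont.comp (f := fun q : ℝ × ℝ × S2 => (q.1, q.2.1, (q.2.2 : EuclideanSpace ℝ (Fin 3))))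
      (by fun_prop)
  exact (h.norm.inv₀ fun q => norm_ne_zero_iff.2 (m_ne _ _ (S2_ne _))).smul h

/-- the homeomorphisms -/
noncomputable def F (s θ : ℝ) : S2 ≃ₜ S2 where
  toFun := f s θ
  invFun := f (-s) (-θ)
  left_inv v := by rw [f_f, neg_add_cancel, neg_add_cancel, f_zero]
  right_inv v := by rw [f_f, add_neg_cancel, add_neg_cancel, f_zero]
  continuous_toFun := f_cont.comp (f := fun v : S2 => (s, θ, v)) (by fun_prop)
  continuous_invFun := f_cont.comp (f := fun v : S2 => (-s, -θ, v)) (by fun_prop)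

theorem F_mul (s θ s' θ' : ℝ) : F s θ * F s' θ' = F (s + s') (θ + θ') := by
  ext1 v
  exact f_f s θ s' θ' v

theorem F_zero : F 0 0 = 1 := by
  ext1 v
  exact f_zero v

theorem F_mem (s θ : ℝ) : (F s θ : Homeo) ∈ G := by
  refine ⟨⟨⟨fun t : unitInterval => (F (t * s) (t * θ) : Homeo), ?_⟩, ?_, ?_⟩⟩
  · apply continuous_induced_rng.2
    apply ContinuousMap.continuous_of_continuous_uncurry
    exact f_cont.comp (f := fun q : unitInterval × S2 => ((q.1 : ℝ) * s, (q.1 : ℝ) * θ, q.2))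
      (by fun_prop)
  · show (F ((0 : unitInterval) * s) ((0 : unitInterval) * θ) : Homeo) = 1
    rw [Set.Icc.coe_zero, zero_mul, zero_mul, F_zero]
  · show (F ((1 : unitInterval) * s) ((1 : unitInterval) * θ) : Homeo) = _
    rw [Set.Icc.coe_one, one_mul, one_mul]

theorem F_pow (s θ : ℝ) (n : ℕ) : F s θ ^ n = F (n * s) (n * θ) := by
  induction n with
  | zero => rw [pow_zero, Nat.cast_zero, zero_mul, zero_mul, F_zero]
  | succ n ih =>
    rw [pow_succ, ih, F_mul, Nat.cast_succ]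
    congr 1 <;> ring

theorem F_inv (s θ : ℝ) : (F s θ)⁻¹ = F (-s) (-θ) := by
  rw [inv_eq_iff_mul_eq_one, F_mul, add_neg_cancel, add_neg_cancel, F_zero]

/-- the point `(1, 0, 0)` -/
noncomputable def e1 : S2 :=
  ⟨!₂[1, 0, 0], by
    rw [mem_sphere_zero_iff_norm, EuclideanSpace.norm_eq, Fin.sum_univ_three]
    simp⟩

theorem e1_0 : (e1 : EuclideanSpace ℝ (Fin 3)) 0 = 1 := rfl
theorem e1_1 : (e1 : EuclideanSpace ℝ (Fin 3)) 1 = 0 := rfl
theorem e1_2 : (e1 : EuclideanSpace ℝ (Fin 3)) 2 = 0 := rfl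

theorem f_e1 (s θ : ℝ) : f s θ e1 = e1 := by
  have h : f s θ e1 = nz e1 (S2_ne e1) := nz_congr _ _ (c := exp s) (exp_pos s) (by
    apply ext3
    · rw [m_0, PiLp.smul_apply, smul_eq_mul]
    · rw [m_1, PiLp.smul_apply, smul_eq_mul, e1_1, e1_2]; ring
    · rw [m_2, PiLp.smul_apply, smul_eq_mul, e1_1, e1_2]; ring)
  rw [h, nz_self]

/-- a fixed vector: some positive multiple of `m s θ v` is `v` -/
theorem fix {s θ : ℝ} {v : S2} (h : f s θ v = v) :
    ∃ c : ℝ, 0 < c ∧ c * (cos θ * (v : EuclideanSpace ℝ (Fin 3)) 1 -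
      sin θ * (v : EuclideanSpace ℝ (Fin 3)) 2) = (v : EuclideanSpace ℝ (Fin 3)) 1 ∧
      c * (sin θ * (v : EuclideanSpace ℝ (Fin 3)) 1 +
      cos θ * (v : EuclideanSpace ℝ (Fin 3)) 2) = (v : EuclideanSpace ℝ (Fin 3)) 2 := by
  have h1 : ‖m s θ v‖⁻¹ • m s θ v = (v : EuclideanSpace ℝ (Fin 3)) := congrArg Subtype.val h
  refine ⟨‖m s θ v‖⁻¹, inv_pos.2 (norm_pos_iff.2 (m_ne s θ (S2_ne v))), ?_, ?_⟩
  · exact congrArg (fun w : EuclideanSpace ℝ (Fin 3) => w 1) h1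
  · exact congrArg (fun w : EuclideanSpace ℝ (Fin 3) => w 2) h1

/-- the points fixed by `B` lie on the axis -/
theorem fix_B {s : ℝ} {v : S2} (h : f s (π / 2) v = v) :
    (v : EuclideanSpace ℝ (Fin 3)) 1 = 0 ∧ (v : EuclideanSpace ℝ (Fin 3)) 2 = 0 := by
  obtain ⟨c, hc, h1, h2⟩ := fix h
  rw [cos_pi_div_two, sin_pi_div_two] at h1 h2
  have h3 : (v : EuclideanSpace ℝ (Fin 3)) 1 * (1 + c ^ 2) = 0 := by
    nlinarith
  have h4 : (v : EuclideanSpace ℝ (Fin 3)) 1 = 0 := by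
    rcases mul_eq_zero.1 h3 with h | h
    · exact h
    · nlinarith [sq_nonneg c]
  refine ⟨h4, ?_⟩
  rw [← h2, h4]
  ring_nf

theorem sq_sum (v : S2) : (v : EuclideanSpace ℝ (Fin 3)) 0 ^ 2 +
    (v : EuclideanSpace ℝ (Fin 3)) 1 ^ 2 + (v : EuclideanSpace ℝ (Fin 3)) 2 ^ 2 = 1 := by
  have h := EuclideanSpace.real_norm_sq_eq (v : EuclideanSpace ℝ (Fin 3))
  rw [mem_sphere_zero_iff_norm.1 v.2, Fin.sum_univ_three] at h
  linarith

theorem sq_sum_m (s θ : ℝ) (v : EuclideanSpace ℝ (Fin 3)) :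
    v 1 ^ 2 + v 2 ^ 2 ≤ ‖m s θ v‖ ^ 2 := by
  rw [EuclideanSpace.real_norm_sq_eq, Fin.sum_univ_three, m_0, m_1, m_2]
  nlinarith [sq_nonneg (exp s * v 0), sin_sq_add_cos_sq θ, sq_nonneg (v 1), sq_nonneg (v 2)]

theorem exp_lim : Tendsto (fun n : ℕ => exp (-(n : ℝ))) atTop (𝓝 0) :=
  Real.tendsto_exp_neg_atTop_nhds_zero.comp tendsto_natCast_atTop_atTop

/-- under the backward iteration all points off the axis tend to the equator -/
theorem lim_neg {w : S2} (hw : 0 < (w : EuclideanSpace ℝ (Fin 3)) 1 ^ 2 +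
    (w : EuclideanSpace ℝ (Fin 3)) 2 ^ 2) (θ : ℕ → ℝ) :
    Tendsto (fun n : ℕ => (f (-(n : ℝ)) (θ n) w : EuclideanSpace ℝ (Fin 3)) 0) atTop (𝓝 0) := by
  obtain ⟨r, hr⟩ : ∃ r : ℝ, r = √((w : EuclideanSpace ℝ (Fin 3)) 1 ^ 2 +
    (w : EuclideanSpace ℝ (Fin 3)) 2 ^ 2) := ⟨_, rfl⟩
  have hr0 : 0 < r := by rw [hr]; exact Real.sqrt_pos.2 hw
  have h1 : Tendsto (fun n : ℕ => exp (-(n : ℝ)) * (|(w : EuclideanSpace ℝ (Fin 3)) 0| / r))
      atTop (𝓝 0) := by
    have := exp_lim.mul_const (|(w : EuclideanSpace ℝ (Fin 3)) 0| / r)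
    rwa [zero_mul] at this
  refine squeeze_zero_norm (fun n => ?_) h1
  show ‖‖m (-(n : ℝ)) (θ n) w‖⁻¹ * (exp (-(n : ℝ)) * (w : EuclideanSpace ℝ (Fin 3)) 0)‖ ≤ _
  have h2 : r ≤ ‖m (-(n : ℝ)) (θ n) w‖ := by
    rw [hr]
    exact Real.sqrt_le_iff.2 ⟨norm_nonneg _, sq_sum_m _ _ _⟩
  rw [norm_mul, norm_mul, norm_inv, norm_norm, Real.norm_eq_abs, Real.norm_eq_abs,
    abs_of_pos (exp_pos _)]
  have h3 : ‖m (-(n : ℝ)) (θ n) w‖⁻¹ ≤ r⁻¹ := inv_anti₀ hr0 h2
  calc ‖m (-(n : ℝ)) (θ n) w‖⁻¹ * (exp (-(n : ℝ)) * |(w : EuclideanSpace ℝ (Fin 3)) 0|)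
      ≤ r⁻¹ * (exp (-(n : ℝ)) * |(w : EuclideanSpace ℝ (Fin 3)) 0|) :=
        mul_le_mul_of_nonneg_right h3 (by positivity)
    _ = exp (-(n : ℝ)) * (|(w : EuclideanSpace ℝ (Fin 3)) 0| / r) := by
        field_simp

/-- under the forward iteration all points of the open right half tend to `(1, 0, 0)` -/
theorem lim_pos {v : S2} (hv : 0 < (v : EuclideanSpace ℝ (Fin 3)) 0) (θ : ℕ → ℝ) :
    Tendsto (fun n : ℕ => f (n : ℝ) (θ n) v) atTop (𝓝 e1) := by
  have hb : ∀ a b : ℝ, ∀ φ : ℕ → ℝ, Tendsto (fun n : ℕ => exp (-(n : ℝ)) *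
      (cos (φ n) * a + sin (φ n) * b)) atTop (𝓝 0) := by
    intro a b φ
    have h1 : Tendsto (fun n : ℕ => exp (-(n : ℝ)) * (|a| + |b|)) atTop (𝓝 0) := by
      have := exp_lim.mul_const (|a| + |b|)
      rwa [zero_mul] at this
    refine squeeze_zero_norm (fun n => ?_) h1
    rw [norm_mul, Real.norm_eq_abs, Real.norm_eq_abs, abs_of_pos (exp_pos _)]
    refine mul_le_mul_of_nonneg_left ?_ (exp_pos _).le
    refine (abs_add_le _ _).trans (add_le_add ?_ ?_)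
    · rw [abs_mul]
      exact mul_le_of_le_one_left (abs_nonneg _) (abs_cos_le_one _)
    · rw [abs_mul]
      exact mul_le_of_le_one_left (abs_nonneg _) (abs_sin_le_one _)
  have hc : Continuous fun q : ℝ × ℝ × ℝ => (!₂[q.1, q.2.1, q.2.2] : EuclideanSpace ℝ (Fin 3)) := by
    fun_prop
  have h1 : Tendsto (fun n : ℕ => exp (-(n : ℝ)) • m (n : ℝ) (θ n) v) atTop
      (𝓝 (!₂[(v : EuclideanSpace ℝ (Fin 3)) 0, 0, 0] : EuclideanSpace ℝ (Fin 3))) := by
    have h2 := (hc.tendsto ((v : EuclideanSpace ℝ (Fin 3)) 0, 0, 0)).comp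
      ((tendsto_const_nhds (x := (v : EuclideanSpace ℝ (Fin 3)) 0) (f := (atTop : Filter ℕ))).prodMk_nhds
        ((hb ((v : EuclideanSpace ℝ (Fin 3)) 1) (-(v : EuclideanSpace ℝ (Fin 3)) 2) θ).prodMk_nhds
        (hb ((v : EuclideanSpace ℝ (Fin 3)) 2) ((v : EuclideanSpace ℝ (Fin 3)) 1) θ)))
    refine h2.congr fun n => ?_
    apply ext3
    · show (v : EuclideanSpace ℝ (Fin 3)) 0 = exp (-(n : ℝ)) * (exp (n : ℝ) *
        (v : EuclideanSpace ℝ (Fin 3)) 0)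
      rw [← mul_assoc, ← exp_add, neg_add_cancel, exp_zero, one_mul]
    · show exp (-(n : ℝ)) * (cos (θ n) * _ + sin (θ n) * -_) = exp (-(n : ℝ)) * (cos (θ n) * _ - _)
      ring
    · show exp (-(n : ℝ)) * (cos (θ n) * _ + sin (θ n) * _) = exp (-(n : ℝ)) * (sin (θ n) * _ + _)
      ring
  have h0 : (!₂[(v : EuclideanSpace ℝ (Fin 3)) 0, 0, 0] : EuclideanSpace ℝ (Fin 3)) =
      (v : EuclideanSpace ℝ (Fin 3)) 0 • (e1 : EuclideanSpace ℝ (Fin 3)) := by
    apply ext3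
    · show _ = (v : EuclideanSpace ℝ (Fin 3)) 0 * 1
      rw [mul_one]; rfl
    · show (0 : ℝ) = (v : EuclideanSpace ℝ (Fin 3)) 0 * 0
      rw [mul_zero]
    · show (0 : ℝ) = (v : EuclideanSpace ℝ (Fin 3)) 0 * 0
      rw [mul_zero]
  have hn : ‖(!₂[(v : EuclideanSpace ℝ (Fin 3)) 0, 0, 0] : EuclideanSpace ℝ (Fin 3))‖ =
      (v : EuclideanSpace ℝ (Fin 3)) 0 := by
    rw [h0, norm_smul, mem_sphere_zero_iff_norm.1 e1.2, mul_one, Real.norm_eq_abs, abs_of_pos hv]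
  rw [tendsto_subtype_rng]
  have h2 : Tendsto (fun n : ℕ => ‖exp (-(n : ℝ)) • m (n : ℝ) (θ n) v‖⁻¹ •
      (exp (-(n : ℝ)) • m (n : ℝ) (θ n) v)) atTop (𝓝 (e1 : EuclideanSpace ℝ (Fin 3))) := by
    have h3 := (h1.norm.inv₀ (by rw [hn]; exact hv.ne')).smul h1
    rw [hn, h0, smul_smul, inv_mul_cancel₀ hv.ne', one_smul] at h3
    exact h3
  refine h2.congr fun n => ?_
  show _ = ‖m (n : ℝ) (θ n) v‖⁻¹ • m (n : ℝ) (θ n) v
  rw [norm_smul, Real.norm_eq_abs, abs_of_pos (exp_pos _), mul_inv, smul_smul]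
  congr 1
  have := (exp_pos (-(n : ℝ))).ne'
  field_simp

/-- points of the right half -/
noncomputable def q (t : ℝ) : S2 := nz !₂[1, t, 0] (by
  intro h
  have : (1 : ℝ) = 0 := congrArg (fun w : EuclideanSpace ℝ (Fin 3) => w 0) h
  exact one_ne_zero this)

theorem q_pos (t : ℝ) : ∃ c : ℝ, 0 < c ∧ (q t : EuclideanSpace ℝ (Fin 3)) 0 = c ∧
    (q t : EuclideanSpace ℝ (Fin 3)) 1 = c * t := by
  refine ⟨‖(!₂[1, t, 0] : EuclideanSpace ℝ (Fin 3))‖⁻¹, inv_pos.2 (norm_pos_iff.2 ?_), ?_, ?_⟩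
  · intro h
    have : (1 : ℝ) = 0 := congrArg (fun w : EuclideanSpace ℝ (Fin 3) => w 0) h
    exact one_ne_zero this
  · show ‖(!₂[1, t, 0] : EuclideanSpace ℝ (Fin 3))‖⁻¹ * 1 = _
    rw [mul_one]
  · rfl

theorem q_inj {t t' : ℝ} (h : q t = q t') : t = t' := by
  obtain ⟨c, hc, h1, h2⟩ := q_pos t
  obtain ⟨c', hc', h1', h2'⟩ := q_pos t'
  rw [h] at h1 h2
  have h3 : c = c' := h1.symm.trans h1'
  have h4 : c * t = c' * t' := h2.symm.trans h2'
  rw [h3] at h4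
  exact mul_left_cancel₀ hc'.ne' h4

/-- an injective map cannot send the whole right half into the axis -/
theorem off_axis (h : S2 ≃ₜ S2) : ∃ v : S2, 0 < (v : EuclideanSpace ℝ (Fin 3)) 0 ∧
    0 < (h v : EuclideanSpace ℝ (Fin 3)) 1 ^ 2 + (h v : EuclideanSpace ℝ (Fin 3)) 2 ^ 2 := by
  by_contra hcon
  push Not at hcon
  have h1 : ∀ v : S2, 0 < (v : EuclideanSpace ℝ (Fin 3)) 0 →
      (h v : EuclideanSpace ℝ (Fin 3)) 1 = 0 ∧ (h v : EuclideanSpace ℝ (Fin 3)) 2 = 0 ∧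
      ((h v : EuclideanSpace ℝ (Fin 3)) 0 = 1 ∨ (h v : EuclideanSpace ℝ (Fin 3)) 0 = -1) := by
    intro v hv
    have h2 := hcon v hv
    have h3 : (h v : EuclideanSpace ℝ (Fin 3)) 1 = 0 := by
      nlinarith [sq_nonneg ((h v : EuclideanSpace ℝ (Fin 3)) 1),
        sq_nonneg ((h v : EuclideanSpace ℝ (Fin 3)) 2)]
    have h4 : (h v : EuclideanSpace ℝ (Fin 3)) 2 = 0 := by
      nlinarith [sq_nonneg ((h v : EuclideanSpace ℝ (Fin 3)) 1),
        sq_nonneg ((h v : EuclideanSpace ℝ (Fin 3)) 2)]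
    refine ⟨h3, h4, ?_⟩
    have h5 := sq_sum (h v)
    rw [h3, h4] at h5
    have h6 : ((h v : EuclideanSpace ℝ (Fin 3)) 0 - 1) *
        ((h v : EuclideanSpace ℝ (Fin 3)) 0 + 1) = 0 := by linarith
    rcases mul_eq_zero.1 h6 with h7 | h7
    · left; linarith
    · right; linarith
  have h2 : ∀ v w : S2, 0 < (v : EuclideanSpace ℝ (Fin 3)) 0 →
      0 < (w : EuclideanSpace ℝ (Fin 3)) 0 →
      (h v : EuclideanSpace ℝ (Fin 3)) 0 = (h w : EuclideanSpace ℝ (Fin 3)) 0 → v = w := by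
    intro v w hv hw he
    apply h.injective
    apply Subtype.ext
    apply ext3 he
    · rw [(h1 v hv).1, (h1 w hw).1]
    · rw [(h1 v hv).2.1, (h1 w hw).2.1]
  have hq : ∀ t, 0 < (q t : EuclideanSpace ℝ (Fin 3)) 0 := by
    intro t
    obtain ⟨c, hc, h3, _⟩ := q_pos t
    rw [h3]
    exact hc
  have h3 : ∀ t t' : ℝ, (h (q t) : EuclideanSpace ℝ (Fin 3)) 0 =
      (h (q t') : EuclideanSpace ℝ (Fin 3)) 0 → t = t' := fun t t' he =>
    q_inj (h2 _ _ (hq t) (hq t') he)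
  have a0 := (h1 _ (hq 0)).2.2
  have a1 := (h1 _ (hq 1)).2.2
  have a2 := (h1 _ (hq 2)).2.2
  have b01 := h3 0 1
  have b02 := h3 0 2
  have b12 := h3 1 2
  rcases a0 with a0 | a0 <;> rcases a1 with a1 | a1 <;> rcases a2 with a2 | a2 <;>
    first
    | exact absurd (b01 (a0.trans a1.symm)) (by norm_num)
    | exact absurd (b02 (a0.trans a2.symm)) (by norm_num)
    | exact absurd (b12 (a1.trans a2.symm)) (by norm_num)

/-- `B` is not conjugate to its inverse -/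
theorem not_rev (h : S2 ≃ₜ S2) : ¬ SemiconjBy h (F 1 (π / 2)) (F 1 (π / 2))⁻¹ := by
  intro hs
  have hn : ∀ (n : ℕ) (v : S2),
      h (f (n : ℝ) (n * (π / 2)) v) = f (-(n : ℝ)) (-(n * (π / 2))) (h v) := by
    intro n v
    have h1 : h * F 1 (π / 2) ^ n = (F 1 (π / 2))⁻¹ ^ n * h := (hs.pow_right n).eq
    rw [inv_pow, F_pow, F_inv, mul_one] at h1
    exact congrArg (fun g : S2 ≃ₜ S2 => g v) h1
  -- the image of the attracting point is fixed
  have hfix : f 1 (π / 2) (h e1) = h e1 := by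
    have h1 := hn 1 e1
    rw [f_e1, Nat.cast_one, one_mul] at h1
    have h2 : f 1 (π / 2) (f (-1) (-(π / 2)) (h e1)) = h e1 := by
      rw [f_f, add_neg_cancel, add_neg_cancel, f_zero]
    rw [← h1] at h2
    exact h2
  obtain ⟨p1, p2⟩ := fix_B hfix
  obtain ⟨v, hv, hw⟩ := off_axis h
  have l1 : Tendsto (fun n : ℕ => (h (f (n : ℝ) (n * (π / 2)) v) : EuclideanSpace ℝ (Fin 3)) 0)
      atTop (𝓝 ((h e1 : EuclideanSpace ℝ (Fin 3)) 0)) := by
    have hc : Continuous fun u : S2 => (h u : EuclideanSpace ℝ (Fin 3)) 0 := by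
      have := h.continuous
      fun_prop
    exact (hc.tendsto e1).comp (lim_pos hv _)
  have l2 := lim_neg hw fun n => -(n * (π / 2))
  have l3 : (h e1 : EuclideanSpace ℝ (Fin 3)) 0 = 0 := by
    refine tendsto_nhds_unique l1 (l2.congr fun n => ?_)
    rw [hn]
  have h5 := sq_sum (h e1)
  rw [p1, p2, l3] at h5
  norm_num at h5

theorem A_sq : F 0 π * F 0 π = 1 := by
  rw [F_mul, add_zero]
  ext1 v
  have h : f 0 (π + π) v = nz v (S2_ne v) := nz_congr _ _ (c := 1) one_pos (by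
    rw [one_smul]
    have h2 : π + π = 2 * π := by ring
    apply ext3
    · rw [m_0, exp_zero, one_mul]
    · rw [m_1, h2, cos_two_pi, sin_two_pi]; ring
    · rw [m_2, h2, cos_two_pi, sin_two_pi]; ring)
  show f 0 (π + π) v = v
  rw [h, nz_self]

theorem not_one_pi (s : ℝ) : F s π ≠ 1 := by
  intro h
  have h1 : f s π (q 1) = q 1 := congrArg (fun g : S2 ≃ₜ S2 => g (q 1)) h
  obtain ⟨c, hc, h2, _⟩ := fix h1
  obtain ⟨d, hd, _, h3⟩ := q_pos 1
  rw [cos_pi, sin_pi, h3] at h2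
  nlinarith [mul_pos hc hd]

theorem B_ne : F 1 (π / 2) ≠ 1 := by
  intro h
  have h1 : f 1 (π / 2) (q 1) = q 1 := congrArg (fun g : S2 ≃ₜ S2 => g (q 1)) h
  obtain ⟨d, hd, _, h3⟩ := q_pos 1
  have h4 := (fix_B h1).1
  rw [h3, mul_one] at h4
  exact hd.ne' h4

theorem key (n : ℕ) (hn : n ≤ 2) (H : Fin n → (S2 ≃ₜ S2)) :
    F 1 (π / 2) ≠ (List.ofFn fun i => H i * F 0 π * (H i)⁻¹).prod := by
  intro hB
  have inv : ∀ g : S2 ≃ₜ S2, (g * F 0 π * g⁻¹) * (g * F 0 π * g⁻¹) = 1 := by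
    intro g
    have : (g * F 0 π * g⁻¹) * (g * F 0 π * g⁻¹) = g * (F 0 π * F 0 π) * g⁻¹ := by group
    rw [this, A_sq, mul_one, mul_inv_cancel]
  interval_cases n
  · rw [List.ofFn_zero, List.prod_nil] at hB
    exact B_ne hB
  · have h1 : F 1 (π / 2) * F 1 (π / 2) = 1 := by
      rw [hB]
      simp only [List.ofFn_succ, List.ofFn_zero, List.prod_cons, List.prod_nil, mul_one]
      exact inv _
    rw [F_mul, add_halves] at h1
    exact not_one_pi _ h1
  · simp only [List.ofFn_succ, List.ofFn_zero, List.prod_cons, List.prod_nil, mul_one] at hB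
    have hI := inv (H 0)
    have hJ := inv (H (Fin.succ 0))
    apply not_rev (H 0 * F 0 π * (H 0)⁻¹)
    rw [hB]
    generalize H 0 * F 0 π * (H 0)⁻¹ = I at *
    generalize H (Fin.succ 0) * F 0 π * (H (Fin.succ 0))⁻¹ = J at *
    have hI' : I⁻¹ = I := inv_eq_of_mul_eq_one_right hI
    have hJ' : J⁻¹ = J := inv_eq_of_mul_eq_one_right hJ
    show I * (I * J) = (I * J)⁻¹ * I
    rw [mul_inv_rev, hI', hJ', ← mul_assoc, hI, one_mul, mul_assoc, hI, mul_one]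

/-- Property `P(n)` fails for `n ≤ 2`, that is, `N ≥ 3`: for the rotation `A` by the angle `π` and
some `B ∈ G` no product of at most two conjugates of `A` equals `B`. -/
theorem result :
    (∃ A ∈ G, ∃ B ∈ G, A ≠ 1 ∧ B ≠ 1 ∧ A * A = 1 ∧ ∀ n ≤ 2, ¬ IsProduct n A B) ∧
    ∀ n, P n → 3 ≤ n := by
  have key' : ∀ n ≤ 2, ¬ IsProduct n (F 0 π : Homeo) (F 1 (π / 2) : Homeo) := by
    rintro n hn ⟨H, hH⟩
    exact key n hn H hH
  refine ⟨⟨(F 0 π : Homeo), F_mem _ _, (F 1 (π / 2) : Homeo), F_mem _ _, not_one_pi 0, B_ne,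
    A_sq, key'⟩, ?_⟩
  intro n hP
  by_contra hlt
  exact key' n (by omega) (hP _ (F_mem 0 π) _ (F_mem 1 (π / 2)) (not_one_pi 0) B_ne)

end Pool.Agent.Results.MP_c6d336_gt.AtLeastThree
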